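import Pool.Agent.Helper19.RFn.GoalsM

/-!
# Project RFn (MP_c98eff_gt), packet M-CMP: comparison of the scalar curvature with a heat solution.
-/

set_option autoImplicit false

open Finset Pool.Agent.Helper47.RFn Pool.Agent.Helper73.RFn Pool.Agent.Helper19.RFn

namespace Pool.Agent.Helper90.RFn

theorem one_mem90 (n : ℕ) : (one : Ix n → Ix n → ℝ) ∈ OO n := by
  intro a b
  simp [one]

theorem cmp : CmpPStmt := by
  intro hMOD hEM hLNK hFLB hNRO _hC1 hC8 hCMB hFJS hHJS hJSR hFHM n hn T c A θ u hT hF hH hini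
  have hsub : Set.Ioo 0 T ⊆ Set.Ico 0 T := fun t ht => ⟨ht.1.le, ht.2⟩
  obtain ⟨M, hM⟩ := hMOD n T hT
  obtain ⟨jA, jt, -⟩ := hFJS n T (Set.Ico 0 T) A θ hT hsub hF
  have mA : MJ T A := fun i j => ⟨(jA i j).cd, (jA i j).hom⟩
  have mt : MJ T θ := fun i j => ⟨(jt i j).cd, (jt i j).hom⟩
  have ju' := hHJS n T A θ u hT hF hH
  have ju : Pool.Agent.Helper47.RFn.JS T u := ⟨ju'.cd, ju'.hom⟩
  obtain ⟨-, hfull, hrf, hd, -, -, hl⟩ := hFLB n T hT M hM (Set.Ico 0 T) A θ hsub hF mA mt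
  obtain ⟨-, -, -, -, -, hN⟩ := hNRO n T hT M hM A θ hF mA mt
  obtain ⟨em1, -, -, em4, -, -⟩ := hEM n T hT M hM
  obtain ⟨-, hev⟩ := hl u u ju ju
  obtain ⟨-, -, -, -, hRc, -⟩ := hLNK n T hT M hM A θ mA mt
  obtain ⟨js1, jsc, -, -, -, jsS, -⟩ := hJSR n T
  obtain ⟨fh1, fh2⟩ := hFHM n
  obtain ⟨hfrm, -, -, hlamfam, -⟩ := fh2 (Set.Ico 0 T) A θ hF
  -- the family `λ - c u`
  have jRc : ∀ a b, Pool.Agent.Helper73.RFn.JS T (fun t => Rcf (A t) (θ t) a b) := fun a b =>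
    ⟨(hRc a b).1.cd, (hRc a b).1.hom⟩
  have jS : Pool.Agent.Helper73.RFn.JS T (fun t (x : EE n) => ∑ a, Rcf (A t) (θ t) a a x) :=
    jsS (Ix n) Finset.univ (fun a t => Rcf (A t) (θ t) a a) (fun a _ => jRc a a)
  have jlam : Pool.Agent.Helper73.RFn.JS T (fun t => lamf (A t) (θ t)) :=
    (js1 (fun _ _ => 1 / (n : ℝ)) (fun t (x : EE n) => ∑ a, Rcf (A t) (θ t) a a x)
      (jsc _) jS).1
  have jcu : Pool.Agent.Helper73.RFn.JS T (fun t x => c * u t x) :=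
    (js1 (fun _ _ => c) u (jsc _) ju').1
  have jv' : Pool.Agent.Helper73.RFn.JS T (fun t x => lamf (A t) (θ t) x - c * u t x) :=
    (js1 (fun t => lamf (A t) (θ t)) (fun t x => c * u t x) jlam jcu).2.2.1
  have jv : Pool.Agent.Helper47.RFn.JS T (fun t x => lamf (A t) (θ t) x - c * u t x) :=
    ⟨jv'.cd, jv'.hom⟩
  obtain ⟨c8c, -, c8s, c8m, -⟩ := hC8 n (Set.Ico 0 T)
  have fcu : SmFam (Set.Ico 0 T) (fun t (x : EE n) => c * u t x) :=
    c8m (fun _ _ => c) u (c8c (fun _ => c) continuousOn_const) hH.fam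
  have fv : SmFam (Set.Ico 0 T) (fun t (x : EE n) => lamf (A t) (θ t) x - c * u t x) :=
    c8s (fun t => lamf (A t) (θ t)) (fun t x => c * u t x) hlamfam fcu
  have hIni0 : (M.flB A θ).Ini (M.em (fun t x => lamf (A t) (θ t) x - c * u t x)) 0 :=
    (hN _ jv fv).2.2.2.2 0 (fun x hx => by
      have := hini x hx
      linarith)
  let U : (M.flB A θ).B := M.em u
  have heq : M.em (fun t x => lamf (A t) (θ t) x - c * u t x) =
      (M.flB A θ).lam - c • U := by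
    refine hfull.ext _ _ fun z t => ?_
    have e1 : (M.flB A θ).ev z t (M.em (fun t x => lamf (A t) (θ t) x - c * u t x)) =
        lamf (A t) (θ t) (M.pt z) - c * u t (M.pt z) := (em1 _ jv).2 z t
    have e2 : (M.flB A θ).ev z t U = u t (M.pt z) := (em1 u ju).2 z t
    rw [e1, map_sub, map_smul, e2, (hd z t).1]
    rfl
  rw [heq] at hIni0
  have hDu : (M.flB A θ).D U = (M.flB A θ).Lap U := by
    refine hfull.ext _ _ fun z t => ?_
    refine Eq.trans ?_ (hev z t).2.symm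
    refine em4 u (fun t => Lapf (A t) (θ t) (u t)) ju ?_ z t
    intro t x ht1 ht2 hx
    have := hH.der [] x hx t ⟨ht1.le, ht2⟩
    exact this.hasDerivAt (Ico_mem_nhds ht1 ht2)
  have hfin := hCMB n hn T (M.flB A θ) hfull hrf U c hDu hIni0
  intro t ht1 ht2 x hx
  have hFt : Frm (A t) (θ t) := hfrm t ⟨ht1.le, ht2⟩
  obtain ⟨-, -, -, -, -, hlams, -⟩ := fh1 (A t) (θ t) hFt
  have hus : Sm (u t) := hH.fam.sm t ⟨ht1.le, ht2⟩
  have hn0 : 0 < ‖x‖ := norm_pos_iff.2 hx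
  have hy : ‖(‖x‖⁻¹ • x : EE n)‖ = 1 := by
    rw [norm_smul, norm_inv, norm_norm, inv_mul_cancel₀ hn0.ne']
  obtain ⟨z, hz, -⟩ := hM.surj (‖x‖⁻¹ • x) one hy (one_mem90 n)
  have hz' := hfin z ⟨t, ht1, ht2⟩
  have e2 : (M.flB A θ).ev z ⟨t, ht1, ht2⟩ U = u t (M.pt z) := (em1 u ju).2 z ⟨t, ht1, ht2⟩
  rw [e2, (hd z ⟨t, ht1, ht2⟩).1, hz] at hz'
  simp only at hz'
  rw [hus.hom ‖x‖⁻¹ x (inv_pos.2 hn0), hlams.hom ‖x‖⁻¹ x (inv_pos.2 hn0)] at hz'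
  exact hz'

end Pool.Agent.Helper90.RFn
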