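import Pool.Agent.Helper47.RFn.CoreN

/-!
# Project RFn (MP_c98eff_gt): packet C1 (closure properties of `Sm`), general dimension.
-/

namespace Pool.Agent.Helper90.RFn

open Finset Pool.Agent.Helper47.RFn

variable {n : ℕ}

theorem c1_const (c : ℝ) : Sm (fun _ : EE n => c) := ⟨contDiffOn_const, fun _ _ _ => rfl⟩

theorem c1_add {f h : EE n → ℝ} (hf : Sm f) (hh : Sm h) : Sm (fun x => f x + h x) :=
  ⟨hf.cd.add hh.cd, fun r x hr => by
    show f (r • x) + h (r • x) = f x + h x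
    rw [hf.hom r x hr, hh.hom r x hr]⟩

theorem c1_sub {f h : EE n → ℝ} (hf : Sm f) (hh : Sm h) : Sm (fun x => f x - h x) :=
  ⟨hf.cd.sub hh.cd, fun r x hr => by
    show f (r • x) - h (r • x) = f x - h x
    rw [hf.hom r x hr, hh.hom r x hr]⟩

theorem c1_mul {f h : EE n → ℝ} (hf : Sm f) (hh : Sm h) : Sm (fun x => f x * h x) :=
  ⟨hf.cd.mul hh.cd, fun r x hr => by
    show f (r • x) * h (r • x) = f x * h x
    rw [hf.hom r x hr, hh.hom r x hr]⟩

theorem c1_neg {f : EE n → ℝ} (hf : Sm f) : Sm (fun x => - f x) :=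
  ⟨hf.cd.neg, fun r x hr => by
    show - f (r • x) = - f x
    rw [hf.hom r x hr]⟩

theorem c1_sum {ι : Type} (s : Finset ι) (f : ι → EE n → ℝ) (hf : ∀ a ∈ s, Sm (f a)) :
    Sm (fun x => ∑ a ∈ s, f a x) :=
  ⟨ContDiffOn.sum fun a ha => (hf a ha).cd, fun r x hr =>
    Finset.sum_congr rfl fun a ha => (hf a ha).hom r x hr⟩

theorem c1_comp {f : EE n → ℝ} {F : ℝ → ℝ} {U : Set ℝ} (hF : ContDiffOn ℝ oo F U) (hf : Sm f)
    (hU : ∀ x, x ≠ 0 → f x ∈ U) : Sm (fun x => F (f x)) :=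
  ⟨hF.comp hf.cd fun x hx => hU x hx, fun r x hr => by
    show F (f (r • x)) = F (f x)
    rw [hf.hom r x hr]⟩

theorem c1_contDiffAt {f : EE n → ℝ} (hf : Sm f) {x : EE n} (hx : x ≠ 0) : ContDiffAt ℝ oo f x :=
  hf.cd.contDiffAt (isOpen_compl_singleton.mem_nhds hx)

theorem c1_differentiableAt {f : EE n → ℝ} (hf : Sm f) {x : EE n} (hx : x ≠ 0) :
    DifferentiableAt ℝ f x :=
  (c1_contDiffAt hf hx).differentiableAt (by simp)

theorem c1_fderiv_smul {f : EE n → ℝ} (hf : Sm f) {r : ℝ} (hr : 0 < r) {x : EE n} (hx : x ≠ 0)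
    (v : EE n) : r * fderiv ℝ f (r • x) v = fderiv ℝ f x v := by
  have hrx : r • x ≠ 0 := smul_ne_zero hr.ne' hx
  have h1 : HasFDerivAt (fun y : EE n => f (r • y))
      ((fderiv ℝ f (r • x)).comp (r • ContinuousLinearMap.id ℝ (EE n))) x := by
    have h2 : HasFDerivAt (fun y : EE n => r • y) (r • ContinuousLinearMap.id ℝ (EE n)) x :=
      (hasFDerivAt_id x).const_smul r
    exact (c1_differentiableAt hf hrx).hasFDerivAt.comp x h2
  have h3 : (fun y : EE n => f (r • y)) = f := funext fun y => hf.hom r y hr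
  rw [h3] at h1
  rw [h1.fderiv]
  simp

theorem c1_pd_cd {f : EE n → ℝ} (hf : Sm f) (i : Fin (n + 1)) : ContDiffOn ℝ oo (pd i f) {0}ᶜ := by
  have h1 : ContDiffOn ℝ oo (fderiv ℝ f) {0}ᶜ :=
    hf.cd.fderiv_of_isOpen isOpen_compl_singleton (by simp)
  exact h1.clm_apply contDiffOn_const

theorem c1_norm_cd : ContDiffOn ℝ oo (fun x : EE n => ‖x‖) {0}ᶜ := fun _ hx =>
  (contDiffAt_norm ℝ hx).contDiffWithinAt

theorem c1_coord_cd (i : Fin (n + 1)) : ContDiffOn ℝ oo (fun x : EE n => x i) {0}ᶜ :=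
  ((EuclideanSpace.proj (𝕜 := ℝ) i).contDiff (n := oo)).contDiffOn

theorem c1_ed {f : EE n → ℝ} (hf : Sm f) (i : Fin (n + 1)) : Sm (ed i f) := by
  refine ⟨c1_norm_cd.mul (c1_pd_cd hf i), ?_⟩
  intro r x hr
  show ‖r • x‖ * fderiv ℝ f (r • x) (EuclideanSpace.single i 1) =
    ‖x‖ * fderiv ℝ f x (EuclideanSpace.single i 1)
  by_cases hx : x = 0
  · subst hx; simp
  · rw [norm_smul, Real.norm_of_nonneg hr.le, ← c1_fderiv_smul hf hr hx (EuclideanSpace.single i 1)]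
    ring

theorem c1_Lr {f : EE n → ℝ} (hf : Sm f) (i j : Fin (n + 1)) : Sm (Lr i j f) := by
  refine ⟨((c1_coord_cd i).mul (c1_pd_cd hf j)).sub ((c1_coord_cd j).mul (c1_pd_cd hf i)), ?_⟩
  intro r x hr
  show (r • x) i * fderiv ℝ f (r • x) (EuclideanSpace.single j 1)
      - (r • x) j * fderiv ℝ f (r • x) (EuclideanSpace.single i 1) =
    x i * fderiv ℝ f x (EuclideanSpace.single j 1) - x j * fderiv ℝ f x (EuclideanSpace.single i 1)
  by_cases hx : x = 0
  · subst hx; simp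
  · rw [← c1_fderiv_smul hf hr hx (EuclideanSpace.single i 1),
      ← c1_fderiv_smul hf hr hx (EuclideanSpace.single j 1)]
    have h1 : ∀ k, (r • x) k = r * x k := fun k => rfl
    rw [h1, h1]
    ring

theorem c1_Ew {f : EE n → ℝ} (hf : Sm f) (w : List (Fin (n + 1))) : Sm (Ew w f) := by
  induction w with
  | nil => exact hf
  | cons i w ih => exact c1_ed ih i

theorem c1_nn (i : Fin (n + 1)) : Sm (nn i : EE n → ℝ) := by
  refine ⟨(c1_coord_cd i).div c1_norm_cd (fun x hx => norm_ne_zero_iff.2 hx), ?_⟩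
  intro r x hr
  show (r • x) i / ‖r • x‖ = x i / ‖x‖
  have h1 : (r • x) i = r * x i := rfl
  rw [h1, norm_smul, Real.norm_of_nonneg hr.le, mul_div_mul_left _ _ hr.ne']

theorem goal_C1 : Goal_C1 := fun _ =>
  ⟨c1_const, fun _ _ hf hh => c1_add hf hh, fun _ _ hf hh => c1_sub hf hh,
    fun _ _ hf hh => c1_mul hf hh, fun _ hf => c1_neg hf, fun _ s f hf => c1_sum s f hf,
    fun _ _ _ _ hF hf hU => c1_comp hF hf (fun x _ => hU x),
    fun _ _ _ _ hF hf hU => c1_comp hF hf hU, fun _ i hf => c1_ed hf i,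
    fun _ i j hf => c1_Lr hf i j, fun _ w hf => c1_Ew hf w, c1_nn⟩

end Pool.Agent.Helper90.RFn
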