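import Pool.Agent.Helper47.RFn.Alg

/-!
Packet LN of PROJECT RFn (MP_c98eff_gt, for helper47): linearity and contractions.
-/

set_option autoImplicit false

namespace Pool.Agent.Helper90.RFn

open Finset Pool.Agent.Helper47.RFn

variable {n : ℕ}

theorem qf_add (R S : T4 n) (z w : Fin n → ℂ) : qf (R + S) z w = qf R z w + qf S z w := by
  unfold qf
  rw [← Complex.add_re]
  congr 1
  simp only [← Finset.sum_add_distrib]
  refine sum_congr rfl fun a _ => sum_congr rfl fun b _ => sum_congr rfl fun c _ =>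
    sum_congr rfl fun d _ => ?_
  have h : (R + S) a b c d = R a b c d + S a b c d := rfl
  rw [h, Complex.ofReal_add]
  ring

theorem qf_smul (c : ℝ) (R : T4 n) (z w : Fin n → ℂ) : qf (c • R) z w = c * qf R z w := by
  unfold qf
  rw [← Complex.re_ofReal_mul]
  congr 1
  simp only [Finset.mul_sum]
  refine sum_congr rfl fun a _ => sum_congr rfl fun b _ => sum_congr rfl fun k _ =>
    sum_congr rfl fun d _ => ?_
  have h : (c • R) a b k d = c * R a b k d := rfl
  rw [h, Complex.ofReal_mul]
  ring

theorem Ric_add (R S : T4 n) : Ric (R + S) = Ric R + Ric S := by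
  ext a c
  rw [Matrix.add_apply]
  exact Finset.sum_add_distrib

theorem Ric_smul (c : ℝ) (R : T4 n) : Ric (c • R) = c • Ric R := by
  ext a k
  rw [Matrix.smul_apply, smul_eq_mul]
  exact (Finset.mul_sum _ _ _).symm

theorem lam_add (R S : T4 n) : lam (R + S) = lam R + lam S := by
  unfold lam
  rw [Ric_add, ← add_div, ← Finset.sum_add_distrib]
  rfl

theorem lam_smul (c : ℝ) (R : T4 n) : lam (c • R) = c * lam R := by
  unfold lam
  rw [Ric_smul, ← mul_div_assoc, Finset.mul_sum]
  rfl

theorem sum_one_right (A : M2 n) (a c : Fin n) : ∑ b, A a b * (1 : M2 n) b c = A a c := by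
  rw [← Matrix.mul_apply, Matrix.mul_one]

theorem sum_one_left (A : M2 n) (a c : Fin n) : ∑ b, (1 : M2 n) a b * A b c = A a c := by
  rw [← Matrix.mul_apply, Matrix.one_mul]

theorem sum_one_diag : ∑ b : Fin n, (1 : M2 n) b b = n := by
  have h : (1 : M2 n).trace = (n : ℝ) := by
    rw [Matrix.trace_one, Fintype.card_fin]
  exact h

theorem Ric_wdg_one (A : M2 n) :
    Ric (wdg A 1) = (((n : ℝ) - 2) / 2) • A + (A.trace / 2) • (1 : M2 n) := by
  ext a c
  rw [Matrix.add_apply, Matrix.smul_apply, Matrix.smul_apply, smul_eq_mul, smul_eq_mul]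
  unfold Ric wdg
  have h : ∀ b, (A a c * (1 : M2 n) b b - A a b * (1 : M2 n) b c + (1 : M2 n) a c * A b b
      - (1 : M2 n) a b * A b c) / 2
      = (A a c / 2) * (1 : M2 n) b b - (1 / 2) * (A a b * (1 : M2 n) b c)
        + ((1 : M2 n) a c / 2) * A b b - (1 / 2) * ((1 : M2 n) a b * A b c) := by
    intro b; ring
  rw [Finset.sum_congr rfl fun b _ => h b, Finset.sum_sub_distrib, Finset.sum_add_distrib,
    Finset.sum_sub_distrib, ← Finset.mul_sum, ← Finset.mul_sum, ← Finset.mul_sum,
    ← Finset.mul_sum, sum_one_right, sum_one_left, sum_one_diag]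
  unfold Matrix.trace Matrix.diag
  ring

theorem Ric_wdg_self (A : M2 n) : Ric (wdg A A) = A.trace • A - A * A := by
  ext a c
  rw [Matrix.sub_apply, Matrix.smul_apply, smul_eq_mul, Matrix.mul_apply]
  unfold Ric wdg
  have h : ∀ b, (A a c * A b b - A a b * A b c + A a c * A b b - A a b * A b c) / 2
      = A a c * A b b - A a b * A b c := by
    intro b; ring
  rw [Finset.sum_congr rfl fun b _ => h b, Finset.sum_sub_distrib, ← Finset.mul_sum]
  unfold Matrix.trace Matrix.diag
  ring

theorem Ric_Id4 : Ric (Id4 n) = ((n : ℝ) - 1) • (1 : M2 n) := by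
  unfold Id4
  rw [Ric_wdg_self, Matrix.trace_one, Fintype.card_fin, Matrix.one_mul, sub_smul, one_smul]

theorem rq_add (A B : M2 n) (v : Fin n → ℝ) : rq (A + B) v = rq A v + rq B v := by
  unfold rq
  simp only [← Finset.sum_add_distrib]
  refine sum_congr rfl fun i _ => sum_congr rfl fun j _ => ?_
  rw [Matrix.add_apply]
  ring

theorem rq_smul (c : ℝ) (A : M2 n) (v : Fin n → ℝ) : rq (c • A) v = c * rq A v := by
  unfold rq
  simp only [Finset.mul_sum]
  refine sum_congr rfl fun i _ => sum_congr rfl fun j _ => ?_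
  rw [Matrix.smul_apply, smul_eq_mul]
  ring

theorem rq_one (v : Fin n → ℝ) : rq (1 : M2 n) v = nrm v := by
  unfold rq nrm
  refine sum_congr rfl fun i _ => ?_
  rw [Finset.sum_eq_single i]
  · rw [Matrix.one_apply_eq]
    ring
  · intro j _ hj
    rw [Matrix.one_apply_ne (Ne.symm hj)]
    ring
  · intro h
    exact absurd (Finset.mem_univ i) h

theorem goal_LN : Goal_LN := by
  intro n
  refine ⟨qf_add, qf_smul, Ric_add, Ric_smul, lam_add, lam_smul, fun A _ => Ric_wdg_one A,
    fun A _ => Ric_wdg_self A, Ric_Id4, fun hn => ?_, fun R hn => ?_, rq_add, rq_smul, rq_one⟩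
  · unfold lam
    rw [Ric_Id4]
    have hn' : (n : ℝ) ≠ 0 := by
      have : 0 < n := hn
      positivity
    have h : ∀ a : Fin n, (((n : ℝ) - 1) • (1 : M2 n)) a a = (n : ℝ) - 1 := by
      intro a
      rw [Matrix.smul_apply, Matrix.one_apply_eq, smul_eq_mul, mul_one]
    rw [Finset.sum_congr rfl fun a _ => h a, Finset.sum_const, Finset.card_univ, Fintype.card_fin,
      nsmul_eq_mul]
    field_simp
  · unfold Ric0 lam
    have hn' : (n : ℝ) ≠ 0 := by
      have : 0 < n := hn
      positivity
    rw [Matrix.trace_sub, Matrix.trace_smul, Matrix.trace_one, Fintype.card_fin, smul_eq_mul]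
    unfold Matrix.trace Matrix.diag
    field_simp
    ring

end Pool.Agent.Helper90.RFn
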