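import Pool.Agent.Helper47.RFn.GoalsB

/-!
# Project RFn (MP_c98eff_gt), packet S2: the minimum of the scalar curvature.
-/

namespace Pool.Agent.Helper90.RFn

open Finset Pool.Agent.Helper47.RFn

variable {n : ℕ} {T : ℝ}

theorem hop_tt90 (F : FB n T) (hB : F.Base) : F.Hop F.tt = 1 := by
  have h : ∀ a, F.H a (F.H a F.tt) = 0 := by
    intro a
    rw [hB.tt_H a]
    exact map_zero _
  change F.D F.tt - ∑ a, F.H a (F.H a F.tt) = 1
  rw [hB.tt_D, Finset.sum_eq_zero (fun a _ => h a), sub_zero]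

/-- the linear function of time -/
noncomputable def lin90 (F : FB n T) (c : ℝ) : F.B := algebraMap ℝ F.B c - (2 : ℝ) • F.tt

theorem lin_ev90 (F : FB n T) (hB : F.Base) (c : ℝ) (z : F.Z) (t : TI T) :
    F.ev z t (lin90 F c) = c - 2 * (t : ℝ) := by
  unfold lin90
  rw [map_sub, AlgHom.commutes, map_smul, hB.tt_ev]
  rfl

theorem lin_H90 (F : FB n T) (hB : F.Base) (c : ℝ) (a : Ix n) : F.H a (lin90 F c) = 0 := by
  unfold lin90
  rw [map_sub, Derivation.map_algebraMap, Derivation.map_smul, hB.tt_H, smul_zero, sub_zero]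

theorem lin_Hop90 (hPRD : Goal_PRD) (F : FB n T) (hB : F.Base) (c : ℝ) :
    F.Hop (lin90 F c) = -algebraMap ℝ F.B 2 := by
  have h := (hPRD n T F).1
  unfold lin90
  rw [(h _ _).2.2.1, ((h (F.tt) 0).2.2.2.1 c).2, ((h (F.tt) 0).2.2.2.1 2).1, hop_tt90 F hB, zero_sub,
    Algebra.algebraMap_eq_smul_one]

theorem hop_lam90 (hEVS : Goal_EVS) (hn : 4 ≤ n) (F : FB n T) (hF : F.Full) (hRF : F.IsRF)
    (z : F.Z) (t : TI T) : 0 ≤ F.ev z t (F.Hop F.lam) := by
  rw [(hEVS n T F (by omega) hF hRF).1, map_smul, map_sum]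
  refine mul_nonneg (by positivity) (Finset.sum_nonneg fun a _ => ?_)
  rw [map_sum]
  refine Finset.sum_nonneg fun b _ => ?_
  rw [map_pow]
  positivity

theorem goal_S2 (hMP1 : Goal_MP1) (hBDD : Goal_BDD) (hNRB : Goal_NRB) (_hBIA : Goal_BIA)
    (hEVS : Goal_EVS) (hPRD : Goal_PRD) : Goal_S2 := by
  intro n hn T F hF hRF t1 m hm hmin
  have hB : F.Base := hF.toBase
  have hprd := (hPRD n T F).1
  obtain ⟨-, hbd2, -, hbd4⟩ := hBDD n T F hB
  have ht1 := t1.2
  -- part (i)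
  have hi : ∀ z (t : TI T), (t1 : ℝ) ≤ t → m ≤ F.ev z t F.lam := by
    intro z t ht
    rcases ht.eq_or_lt with h | h
    · have h1 : t1 = t := Subtype.ext h
      rw [← h1]
      exact hmin z
    · have key := hMP1 n T F hB (F.lam - algebraMap ℝ F.B m) (t1 : ℝ) (t : ℝ) 0 1 ht1.1.le t.2.2
        le_rfl one_pos ?_ ?_ z t h le_rfl
      · rw [map_sub, AlgHom.commutes] at key
        have h2 : (algebraMap ℝ ℝ) m = m := rfl
        rw [h2] at key
        linarith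
      · intro ε hε
        obtain ⟨δ, hδ, hδ'⟩ := hbd4 F.lam t1 m hmin ε hε
        refine ⟨δ, hδ, fun z' t' h1 h2 => ?_⟩
        have h3 := hδ' z' t' (by rw [abs_lt]; constructor <;> linarith)
        rw [map_sub, AlgHom.commutes]
        have h4 : (algebraMap ℝ ℝ) m = m := rfl
        rw [h4]
        linarith
      · intro z' t' _ _ _ _ _
        rw [zero_mul, (hprd _ _).2.2.1, ((hprd F.lam 0).2.2.2.1 m).2, sub_zero]
        exact hop_lam90 hEVS hn F hF hRF z' t'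
  refine ⟨hi, ?_⟩
  by_contra hcon
  push Not at hcon
  have hT : 0 < T - t1 := sub_pos.2 ht1.2
  rw [div_lt_iff₀ (by positivity)] at hcon
  set t2 : ℝ := t1 + 1 / (2 * m) with ht2
  have hm2 : 0 < 1 / (2 * m) := by positivity
  have h12 : (t1 : ℝ) < t2 := by rw [ht2]; linarith
  have h2T : t2 < T := by
    have h3 : 1 / (2 * m) < T - t1 := by
      rw [div_lt_iff₀ (by positivity)]
      linarith
    rw [ht2]
    linarith
  have h20 : 0 < t2 := ht1.1.trans h12
  obtain ⟨C, hC⟩ := hbd2 F.lam t1 t2 ht1.1 h2T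
  set c : ℝ := 1 / m + 2 * t1 with hc
  have hct2 : c - 2 * t2 = 0 := by
    rw [hc, ht2]
    field_simp
    ring
  set f : F.B := F.lam * lin90 F c - algebraMap ℝ F.B 1 with hf
  have hfev : ∀ z t, F.ev z t f = F.ev z t F.lam * (c - 2 * (t : ℝ)) - 1 := by
    intro z t
    rw [hf, map_sub, map_mul, lin_ev90 F hB, AlgHom.commutes]
    rfl
  have hgg : F.gg F.lam (lin90 F c) = 0 := by
    unfold FB.gg
    refine Finset.sum_eq_zero fun a _ => ?_
    rw [lin_H90 F hB, mul_zero]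
  have hfHop : ∀ z t, F.ev z t (F.Hop f) =
      (c - 2 * (t : ℝ)) * F.ev z t (F.Hop F.lam) - 2 * F.ev z t F.lam := by
    intro z t
    rw [hf, (hprd _ _).2.2.1, ((hprd F.lam 0).2.2.2.1 1).2, sub_zero, (hprd _ _).1, hgg, smul_zero,
      sub_zero, lin_Hop90 hPRD F hB, map_add, map_mul, map_mul, map_neg, lin_ev90 F hB,
      AlgHom.commutes]
    have h4 : (algebraMap ℝ ℝ) 2 = 2 := rfl
    rw [h4]
    ring
  obtain ⟨z0⟩ := F.neZ
  have hmem : t2 ∈ Set.Ioo (0 : ℝ) T := ⟨h20, h2T⟩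
  have key := hMP1 n T F hB f (t1 : ℝ) t2 (2 * |C|) 1 ht1.1.le h2T (by positivity) one_pos ?_ ?_
    z0 ⟨t2, hmem⟩ h12 le_rfl
  · rw [hfev] at key
    have h5 : c - 2 * (((⟨t2, hmem⟩ : TI T) : ℝ)) = 0 := hct2
    rw [h5] at key
    linarith
  · intro ε hε
    have h0 : ∀ z, (0 : ℝ) ≤ F.ev z t1 f := by
      intro z
      rw [hfev]
      have h1 : c - 2 * (t1 : ℝ) = 1 / m := by rw [hc]; ring
      rw [h1]
      have h2 : m * (1 / m) ≤ F.ev z t1 F.lam * (1 / m) :=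
        mul_le_mul_of_nonneg_right (hmin z) (by positivity)
      rw [mul_one_div_cancel hm.ne'] at h2
      linarith
    obtain ⟨δ, hδ, hδ'⟩ := hbd4 f t1 0 h0 ε hε
    refine ⟨δ, hδ, fun z' t' h1 h2 => ?_⟩
    have h3 := hδ' z' t' (by rw [abs_lt]; constructor <;> linarith)
    linarith
  · intro z t h1 h2 _ _ hneg
    have hlam : m ≤ F.ev z t F.lam := hi z t h1.le
    have hlam0 : 0 ≤ F.ev z t F.lam := hm.le.trans hlam
    have hL : 0 ≤ c - 2 * (t : ℝ) := by linarith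
    have hb := hC z t h1.le h2
    have hb' : F.ev z t F.lam ≤ |C| := (le_abs_self _).trans (hb.trans (le_abs_self _))
    obtain ⟨C', -, hnrb⟩ := hNRB n hn
    have h3 := (hnrb T F hF hRF z t hlam0).2.1
    rw [hfHop]
    rw [hfev] at hneg ⊢
    have h4 : (c - 2 * (t : ℝ)) * (2 * F.ev z t F.lam ^ 2)
        ≤ (c - 2 * (t : ℝ)) * F.ev z t (F.Hop F.lam) := mul_le_mul_of_nonneg_left h3 hL
    have h5 : 2 * |C| * (F.ev z t F.lam * (c - 2 * (t : ℝ)) - 1)
        ≤ 2 * F.ev z t F.lam * (F.ev z t F.lam * (c - 2 * (t : ℝ)) - 1) := by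
      refine mul_le_mul_of_nonpos_right ?_ hneg.le
      linarith
    nlinarith [h4, h5]

end Pool.Agent.Helper90.RFn
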